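import Mathlib

/-!
Functoriality of the adic completion of a ring for ring endomorphisms that respect the ideal.
-/

namespace Pool.Agent.H.MP_9e990c_al.AdicFun

variable {R : Type*} [CommRing R] {I : Ideal R}

theorem pow_le_comap {f : R →+* R} (hf : I ≤ I.comap f) (n : ℕ) : I ^ n ≤ (I ^ n).comap f := by
  refine le_trans ?_ (Ideal.le_comap_pow f n)
  exact Ideal.pow_right_mono hf n

/-- the map to the `n`-th level induced by `f` -/
noncomputable def levelHom (f : R →+* R) (hf : I ≤ I.comap f) (n : ℕ) :
    AdicCompletion I R →+* R ⧸ I ^ n :=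
  (Ideal.quotientMap (I ^ n) f (pow_le_comap hf n)).comp
      ((AdicCompletion.evalₐ I n : AdicCompletion I R →ₐ[R] R ⧸ I ^ n) :
        AdicCompletion I R →+* R ⧸ I ^ n)

theorem levelHom_compat (f : R →+* R) (hf : I ≤ I.comap f) {m n : ℕ} (hle : m ≤ n) :
    (Ideal.Quotient.factorPow I hle).comp (levelHom f hf n) = levelHom f hf m := by
  ext x
  obtain ⟨y, rfl⟩ := AdicCompletion.mk_surjective I R x
  simp only [levelHom, RingHom.coe_comp, Function.comp_apply, RingHom.coe_coe,
    AdicCompletion.evalₐ_mk, Ideal.quotientMap_mk]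
  rw [Ideal.Quotient.factor_mk, Ideal.Quotient.eq, ← map_sub]
  have h2 : y.1 n - y.1 m ∈ I ^ m := by
    rw [← Ideal.Quotient.eq]
    exact AdicCompletion.Ideal.mk_eq_mk I hle y
  exact pow_le_comap hf m h2

/-- the ring endomorphism of the completion induced by an endomorphism of the ring -/
noncomputable def mapHom (f : R →+* R) (hf : I ≤ I.comap f) :
    AdicCompletion I R →+* AdicCompletion I R :=
  AdicCompletion.liftRingHom I (levelHom f hf) (fun hle => levelHom_compat f hf hle)

theorem eval_mapHom (f : R →+* R) (hf : I ≤ I.comap f) (n : ℕ) (x : AdicCompletion I R) :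
    AdicCompletion.evalₐ I n (mapHom f hf x) =
      Ideal.quotientMap (I ^ n) f (pow_le_comap hf n) (AdicCompletion.evalₐ I n x) := by
  rw [mapHom, AdicCompletion.evalₐ_liftRingHom]
  rfl

theorem mapHom_of (f : R →+* R) (hf : I ≤ I.comap f) (x : R) :
    mapHom f hf (algebraMap R (AdicCompletion I R) x) =
      algebraMap R (AdicCompletion I R) (f x) := by
  apply AdicCompletion.ext_evalₐ
  intro n
  rw [eval_mapHom]
  rw [AlgHom.commutes, AlgHom.commutes]
  simp

theorem mapHom_comp (f g : R →+* R) (hf : I ≤ I.comap f) (hg : I ≤ I.comap g)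
    (hfg : I ≤ I.comap (f.comp g)) (x : AdicCompletion I R) :
    mapHom f hf (mapHom g hg x) = mapHom (f.comp g) hfg x := by
  apply AdicCompletion.ext_evalₐ
  intro n
  rw [eval_mapHom, eval_mapHom, eval_mapHom]
  obtain ⟨y, hy⟩ := Ideal.Quotient.mk_surjective (AdicCompletion.evalₐ I n x)
  rw [← hy]
  simp

theorem mapHom_id (h : I ≤ I.comap (RingHom.id R)) (x : AdicCompletion I R) :
    mapHom (RingHom.id R) h x = x := by
  apply AdicCompletion.ext_evalₐ
  intro n
  rw [eval_mapHom]
  obtain ⟨y, hy⟩ := Ideal.Quotient.mk_surjective (AdicCompletion.evalₐ I n x)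
  rw [← hy]
  simp

theorem mapHom_congr {f g : R →+* R} (hf : I ≤ I.comap f) (hg : I ≤ I.comap g) (h : f = g) :
    mapHom f hf = mapHom g hg := by
  subst h
  rfl

/-- the ring automorphism of the completion induced by an automorphism of the ring -/
noncomputable def mapEquiv (e : R ≃+* R) (he : I ≤ I.comap (e : R →+* R))
    (he' : I ≤ I.comap (e.symm : R →+* R)) : AdicCompletion I R ≃+* AdicCompletion I R :=
  RingEquiv.ofRingHom (mapHom (e : R →+* R) he) (mapHom (e.symm : R →+* R) he')
    (by
      refine RingHom.ext fun x => ?_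
      rw [RingHom.comp_apply, mapHom_comp _ _ _ _ (by
        have : (e : R →+* R).comp (e.symm : R →+* R) = RingHom.id R := by ext; simp
        rw [this]; exact le_of_eq (Ideal.comap_id _).symm)]
      rw [mapHom_congr _ (le_of_eq (Ideal.comap_id _).symm) (by ext; simp)]
      exact mapHom_id _ x)
    (by
      refine RingHom.ext fun x => ?_
      rw [RingHom.comp_apply, mapHom_comp _ _ _ _ (by
        have : (e.symm : R →+* R).comp (e : R →+* R) = RingHom.id R := by ext; simp
        rw [this]; exact le_of_eq (Ideal.comap_id _).symm)]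
      rw [mapHom_congr _ (le_of_eq (Ideal.comap_id _).symm) (by ext; simp)]
      exact mapHom_id _ x)

theorem mapEquiv_of (e : R ≃+* R) (he : I ≤ I.comap (e : R →+* R))
    (he' : I ≤ I.comap (e.symm : R →+* R)) (x : R) :
    mapEquiv e he he' (algebraMap R (AdicCompletion I R) x) =
      algebraMap R (AdicCompletion I R) (e x) :=
  mapHom_of (e : R →+* R) he x

theorem eval_mapEquiv (e : R ≃+* R) (he : I ≤ I.comap (e : R →+* R))
    (he' : I ≤ I.comap (e.symm : R →+* R)) (n : ℕ) (x : AdicCompletion I R) :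
    AdicCompletion.evalₐ I n (mapEquiv e he he' x) =
      Ideal.quotientMap (I ^ n) (e : R →+* R) (pow_le_comap he n)
        (AdicCompletion.evalₐ I n x) :=
  eval_mapHom (e : R →+* R) he n x

theorem mapHom_eq_of {f : R →+* R} (hf : I ≤ I.comap f) (x : AdicCompletion I R)
    (h : ∀ r : R, f r = r) : mapHom f hf x = x := by
  apply AdicCompletion.ext_evalₐ
  intro n
  rw [eval_mapHom]
  obtain ⟨y, hy⟩ := Ideal.Quotient.mk_surjective (AdicCompletion.evalₐ I n x)
  rw [← hy]
  simp [h]

end Pool.Agent.H.MP_9e990c_al.AdicFun
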