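import Pool.Agent.H.MP_9e990c_al.h89.SigR2
import Pool.Agent.H.MP_9e990c_al.h89.AdicFun

/-!
Approximation and separatedness in the completion `O`; the automorphisms `sigma_i` of `O`.
-/

namespace Pool.Agent.H.MP_9e990c_al.Base

open IsLocalRing

/-- the ideal generated by `pi` -/
noncomputable abbrev IR : Ideal R := Ideal.span {piR}

theorem evalO_piO_pow (n : ℕ) : AdicCompletion.evalₐ IR n (piO ^ n) = 0 := by
  have h : (piO ^ n : O) = algebraMap R O (piR ^ n) := by rw [piO, map_pow]
  rw [h, AlgHom.commutes]
  change Ideal.Quotient.mk (IR ^ n) (piR ^ n) = 0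
  rw [Ideal.Quotient.eq_zero_iff_mem]
  exact Ideal.pow_mem_pow (Ideal.mem_span_singleton_self piR) n

/-- `O` is `pi`-adically separated -/
theorem separated (x : O) (h : ∀ n : ℕ, ∃ y : O, x = piO ^ n * y) : x = 0 := by
  apply AdicCompletion.ext_evalₐ
  intro n
  obtain ⟨y, hy⟩ := h n
  rw [hy, map_mul, evalO_piO_pow, zero_mul, map_zero]

/-- approximation by elements of `R` -/
theorem exists_approx (n : ℕ) (x : O) : ∃ (r : R) (y : O), x = algebraMap R O r + piO ^ n * y := by
  obtain ⟨r, hr⟩ := Ideal.Quotient.mk_surjective (AdicCompletion.evalₐ IR n x)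
  have hfg : (IR).FG := ⟨{piR}, by simp⟩
  have h0 : x - algebraMap R O r ∈ (AdicCompletion.eval IR R n).ker := by
    rw [LinearMap.mem_ker]
    have h1 : AdicCompletion.evalₐ IR n (x - algebraMap R O r) = 0 := by
      rw [map_sub, AlgHom.commutes, ← hr]
      exact sub_self _
    have h2 := AdicCompletion.factor_evalₐ_eq_eval (I := IR) (n := n) (x - algebraMap R O r)
      (le_of_eq (Ideal.mul_top _).symm)
    rw [← h2, h1, map_zero]
  rw [← AdicCompletion.pow_smul_top_eq_ker_eval hfg] at h0
  rw [Ideal.span_singleton_pow, Submodule.ideal_span_singleton_smul] at h0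
  obtain ⟨y, -, hy⟩ := h0
  refine ⟨r, y, ?_⟩
  have hy3 : algebraMap R O (piR ^ n) * y = x - algebraMap R O r :=
    (Algebra.smul_def (piR ^ n) y).symm.trans hy
  rw [map_pow] at hy3
  rw [show (piO : O) = algebraMap R O piR from rfl, hy3]
  ring

/-- a homomorphism of `O` fixing `pi` is determined by its values on `R` -/
theorem homO_ext' {f g : O →+* O} (hf : f piO = piO) (hg : g piO = piO)
    (h : ∀ r : R, f (algebraMap R O r) = g (algebraMap R O r)) : f = g := by
  refine RingHom.ext fun x => ?_
  have : f x - g x = 0 := by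
    refine separated _ fun n => ?_
    obtain ⟨r, y, hy⟩ := exists_approx n x
    refine ⟨f y - g y, ?_⟩
    rw [hy, map_add, map_add, map_mul, map_mul, map_pow, map_pow, hf, hg, h]
    ring
  exact sub_eq_zero.mp this

theorem homO_ext {f g : O →+* O} (hf : f piO = piO) (hg : g piO = piO)
    (h : ∀ i, f (varO i) = g (varO i)) : f = g := by
  refine homO_ext' hf hg ?_
  have : f.comp (algebraMap R O) = g.comp (algebraMap R O) := by
    refine homR_ext ?_ ?_
    · exact hf.trans hg.symm
    · exact h
  exact fun r => congrArg (fun e : R →+* O => e r) this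

theorem le_comap_of {e : R →+* R} (h : e piR = piR) : IR ≤ IR.comap e := by
  rw [Ideal.span_le, Set.singleton_subset_iff]
  change e piR ∈ IR
  rw [h]
  exact Ideal.mem_span_singleton_self piR

/-- extension of an endomorphism fixing `pi` to the completion -/
theorem exists_extO (e : R →+* R) (h : e piR = piR) :
    ∃ E : O →+* O, ∀ r, E (algebraMap R O r) = algebraMap R O (e r) :=
  ⟨AdicFun.mapHom e (le_comap_of h), AdicFun.mapHom_of e (le_comap_of h)⟩

/-- `sigma_i` on `O` -/
noncomputable def sO (i : Fin 7) : O →+* O := (exists_extO (sR i) (sR_pi i)).choose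

theorem sO_algebraMap (i : Fin 7) (r : R) : sO i (algebraMap R O r) = algebraMap R O (sR i r) :=
  (exists_extO (sR i) (sR_pi i)).choose_spec r

theorem sO_pi (i : Fin 7) : sO i piO = piO := by rw [piO, sO_algebraMap, sR_pi]

theorem sO_ne {i k : Fin 7} (h : k ≠ i) : sO i (varO k) = varO k := by
  rw [varO, sO_algebraMap, sR_ne h]

theorem sO_self (i : Fin 7) :
    sO i (varO i) * (1 + piO ^ 8 * varO i) = varO i + piO ^ 4 := by
  have h := congrArg (algebraMap R O) (mob_mul (varR i))
  rw [varO, sO_algebraMap, sR_self, piO]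
  simpa only [map_mul, map_add, map_pow, map_one] using h

theorem sO_three (i : Fin 7) (x : O) : sO i (sO i (sO i x)) = x := by
  have h : ((sO i).comp ((sO i).comp (sO i))) = RingHom.id O := by
    refine homO_ext' ?_ rfl ?_
    · simp only [RingHom.comp_apply, sO_pi]
    · intro r
      simp only [RingHom.comp_apply, RingHom.id_apply, sO_algebraMap, sR_three]
  exact congrArg (fun f : O →+* O => f x) h

theorem sO_comm (i j : Fin 7) (x : O) : sO i (sO j x) = sO j (sO i x) := by
  have h : (sO i).comp (sO j) = (sO j).comp (sO i) := by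
    refine homO_ext' ?_ ?_ ?_
    · simp only [RingHom.comp_apply, sO_pi]
    · simp only [RingHom.comp_apply, sO_pi]
    · intro r
      simp only [RingHom.comp_apply, sO_algebraMap, sR_comm i j]
  exact congrArg (fun f : O →+* O => f x) h

/-- `sigma_i` as an automorphism of `O` -/
noncomputable def sOe (i : Fin 7) : O ≃+* O :=
  RingEquiv.ofRingHom (sO i) ((sO i).comp (sO i))
    (RingHom.ext fun x => sO_three i x) (RingHom.ext fun x => sO_three i x)

theorem sOe_apply (i : Fin 7) (x : O) : sOe i x = sO i x := rfl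

theorem sOe_symm_apply (i : Fin 7) (x : O) : (sOe i).symm x = sO i (sO i x) := rfl

end Pool.Agent.H.MP_9e990c_al.Base
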