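import Pool.Agent.H.MP_9e990c_al.h89.SigO
import Pool.Agent.H.MP_9e990c_al.h20.RingO

/-!
The congruence `sigma_i r = r + pi^4 r'`, `red r' = (d/dx_i) (red r)`, for `i < 4`.
-/

namespace Pool.Agent.H.MP_9e990c_al.Base

open N9e

/-- the property on `R` -/
def Cg (i : Fin 7) (r : R) : Prop :=
  ∃ r', sR i r = r + piR ^ 4 * r' ∧ redR r' = pd i (redR r)

theorem Cg_add {i : Fin 7} {r s : R} (hr : Cg i r) (hs : Cg i s) : Cg i (r + s) := by
  obtain ⟨r', h1, h2⟩ := hr
  obtain ⟨s', h3, h4⟩ := hs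
  refine ⟨r' + s', ?_, ?_⟩
  · rw [map_add, h1, h3]; ring
  · rw [map_add, map_add, h2, h4, map_add]

theorem Cg_mul {i : Fin 7} {r s : R} (hr : Cg i r) (hs : Cg i s) : Cg i (r * s) := by
  obtain ⟨r', h1, h2⟩ := hr
  obtain ⟨s', h3, h4⟩ := hs
  refine ⟨r * s' + s * r' + piR ^ 4 * r' * s', ?_, ?_⟩
  · rw [map_mul, h1, h3]; ring
  · rw [map_add, map_add, map_mul, map_mul, map_mul, map_mul, map_pow, redR_pi, h2, h4,
      map_mul, Derivation.leibniz, smul_eq_mul, smul_eq_mul]
    ring

theorem sR_B (i : Fin 7) (b : B) :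
    sR i (algebraMap A0 R (MvPolynomial.C b)) = algebraMap A0 R (MvPolynomial.C b) := by
  have h : ((sR i).comp ((algebraMap A0 R).comp MvPolynomial.C)) =
      (algebraMap A0 R).comp MvPolynomial.C := homB_ext (sR_pi i)
  exact congrArg (fun f : B →+* R => f b) h

theorem pd_redR_B (i : Fin 7) (b : B) :
    pd i (redR (algebraMap A0 R (MvPolynomial.C b))) = 0 := by
  rw [redR_algebraMap]
  have : redA' (MvPolynomial.C b) = algebraMap PA MM (MvPolynomial.C (toF3 b)) := by
    simp [redA', redA, cub]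
  rw [this, pd_algebraMap, MvPolynomial.pderiv_C, map_zero]

theorem Cg_B (i : Fin 7) (b : B) : Cg i (algebraMap A0 R (MvPolynomial.C b)) :=
  ⟨0, by rw [sR_B, mul_zero, add_zero], by rw [map_zero, pd_redR_B]⟩

theorem Cg_var {i : Fin 7} (hi : i < 4) (k : Fin 7) : Cg i (varR k) := by
  by_cases hk : k = i
  · subst hk
    have hu := isUnit_one_add_pow 8 (by norm_num) (varR k)
    obtain ⟨u, hu⟩ := hu
    refine ⟨(1 - piR ^ 4 * varR k ^ 2) * (↑u⁻¹ : R), ?_, ?_⟩
    · rw [sR_self]
      have h1 := mob_mul (varR k)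
      rw [← hu] at h1
      have h2 : mob (varR k) = (varR k + piR ^ 4) * (↑u⁻¹ : R) := by
        rw [← h1, mul_assoc, Units.mul_inv, mul_one]
      rw [h2]
      have h3 : (1 : R) = (1 + piR ^ 8 * varR k) * (↑u⁻¹ : R) := by
        rw [← hu, Units.mul_inv]
      linear_combination (-varR k) * h3
    · rw [redR_var, if_pos hi, pd_self, map_mul, map_sub, map_mul, map_pow, redR_pi, map_one]
      have h3 : redR (u : R) * redR (↑u⁻¹ : R) = 1 := by
        rw [← map_mul, Units.mul_inv, map_one]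
      rw [hu, map_add, map_mul, map_pow, redR_pi, map_one] at h3
      simpa using h3
  · refine ⟨0, by rw [sR_ne hk, mul_zero, add_zero], ?_⟩
    rw [map_zero, redR_var]
    split_ifs with h4
    · rw [pd_xx, if_neg (fun h => hk h.symm)]
    · rw [Derivation.leibniz_pow, pd_xx, if_neg (fun h => hk h.symm)]
      simp

theorem Cg_A0 {i : Fin 7} (hi : i < 4) (a : A0) : Cg i (algebraMap A0 R a) := by
  induction a using MvPolynomial.induction_on with
  | C b => exact Cg_B i b
  | add p q hp hq => rw [map_add]; exact Cg_add hp hq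
  | mul_X p k hp => rw [map_mul]; exact Cg_mul hp (Cg_var hi k)

theorem Cg_all {i : Fin 7} (hi : i < 4) (r : R) : Cg i r := by
  obtain ⟨a, s, rfl⟩ := IsLocalization.exists_mk'_eq P0.primeCompl r
  set r : R := IsLocalization.mk' R a s with hr
  have hrs : r * algebraMap A0 R s = algebraMap A0 R a := IsLocalization.mk'_spec R a s
  obtain ⟨a', ha1, ha2⟩ := Cg_A0 hi a
  obtain ⟨s', hs1, hs2⟩ := Cg_A0 hi (s : A0)
  have hsu : IsUnit (algebraMap A0 R s) := IsLocalization.map_units R s
  have hU : IsUnit (sR i (algebraMap A0 R s)) := hsu.map (sR i)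
  obtain ⟨U, hU⟩ := hU
  refine ⟨(a' - r * s') * (↑U⁻¹ : R), ?_, ?_⟩
  · have e1 : sR i r * sR i (algebraMap A0 R s) = sR i (algebraMap A0 R a) := by
      rw [← map_mul, hrs]
    have e2 : sR i r = sR i (algebraMap A0 R a) * (↑U⁻¹ : R) := by
      rw [← e1, ← hU, mul_assoc, Units.mul_inv, mul_one]
    have e3 : (algebraMap A0 R s + piR ^ 4 * s') * (↑U⁻¹ : R) = 1 := by
      rw [← hs1, ← hU, Units.mul_inv]
    rw [e2, ha1, ← hrs]
    linear_combination r * e3
  · have hs0 : redR (algebraMap A0 R s) ≠ 0 := by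
      intro h
      have := hsu.map redR
      rw [h] at this
      exact not_isUnit_zero this
    have e4 : redR (U : R) = redR (algebraMap A0 R s) := by
      rw [hU, hs1, map_add, map_mul, map_pow, redR_pi]
      ring
    have e5 : redR (U : R) * redR (↑U⁻¹ : R) = 1 := by
      rw [← map_mul, Units.mul_inv, map_one]
    have e6 : redR (↑U⁻¹ : R) = (redR (algebraMap A0 R s))⁻¹ := by
      rw [e4] at e5
      exact (eq_inv_of_mul_eq_one_right e5)
    have e7 : pd i (redR (algebraMap A0 R a)) =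
        redR r * pd i (redR (algebraMap A0 R s)) + redR (algebraMap A0 R s) * pd i (redR r) := by
      rw [← hrs, map_mul, Derivation.leibniz, smul_eq_mul, smul_eq_mul]
    rw [map_mul, map_sub, map_mul, ha2, hs2, e6, e7]
    field_simp
    ring

/-- the congruence on `O` -/
theorem sO_congr {i : Fin 7} (hi : i < 4) (x : O) :
    ∃ x', sO i x = x + piO ^ 4 * x' ∧ redO x' = pd i (redO x) := by
  obtain ⟨r, y, hx⟩ := exists_approx 5 x
  obtain ⟨r', h1, h2⟩ := Cg_all hi r
  refine ⟨algebraMap R O r' + piO * (sO i y - y), ?_, ?_⟩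
  · rw [hx, map_add, map_mul, map_pow, sO_pi, sO_algebraMap, h1, map_add, map_mul, map_pow, piO]
    ring
  · rw [map_add, map_mul, redO_pi, zero_mul, add_zero, redO_algebraMap, h2, hx, map_add, map_mul,
      map_pow, redO_pi, redO_algebraMap]
    simp

theorem redO_sO {i : Fin 7} (hi : i < 4) (x : O) : redO (sO i x) = redO x := by
  obtain ⟨x', h1, h2⟩ := sO_congr hi x
  rw [h1, map_add, map_mul, map_pow, redO_pi]
  simp

end Pool.Agent.H.MP_9e990c_al.Base
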