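import Mathlib

/-!
The concrete base ring.  `B = Z[pi]`, `pi^12 = -3`; `A0 = B[t, x1, x2, x3, b1, b2, b3]`
(variables `0 = t`, `1 2 3 = x_j`, `4 5 6 = b_j`); `P0` = the prime generated by `pi`
(kernel of the reduction to `F_3[t,x,b]`); `R` = the localisation; `O` = its completion.
-/

namespace Pool.Agent.H.MP_9e990c_al.Base

/-- `Z[pi]` with `pi ^ 12 = -3` -/
abbrev B : Type := AdjoinRoot (Polynomial.X ^ 12 + 3 : Polynomial ℤ)

/-- the uniformizer -/
noncomputable def pB : B := AdjoinRoot.root (Polynomial.X ^ 12 + 3 : Polynomial ℤ)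

theorem pB_pow : pB ^ 12 = -3 := by
  have h : Polynomial.eval₂ (AdjoinRoot.of (Polynomial.X ^ 12 + 3 : Polynomial ℤ)) pB
      (Polynomial.X ^ 12 + 3 : Polynomial ℤ) = 0 := AdjoinRoot.eval₂_root _
  have h2 : pB ^ 12 + 3 = 0 := by
    simpa [Polynomial.eval₂_add, Polynomial.eval₂_pow] using h
  linear_combination h2

/-- reduction modulo `pi` -/
noncomputable def toF3 : B →+* ZMod 3 :=
  AdjoinRoot.lift (Int.castRingHom (ZMod 3)) 0 (by
    simp only [Polynomial.eval₂_add, Polynomial.eval₂_pow, Polynomial.eval₂_X,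
      Polynomial.eval₂_ofNat]
    decide)

theorem toF3_pB : toF3 pB = 0 := AdjoinRoot.lift_root _

/-- the polynomial ring `B[t, x1, x2, x3, b1, b2, b3]` -/
abbrev A0 : Type := MvPolynomial (Fin 7) B

/-- reduction of coefficients modulo `pi` -/
noncomputable def redA : A0 →+* MvPolynomial (Fin 7) (ZMod 3) := MvPolynomial.map toF3

/-- the prime generated by `pi` -/
noncomputable def P0 : Ideal A0 := RingHom.ker redA

instance instPrimeP0 : P0.IsPrime := RingHom.ker_isPrime redA

/-- the localisation of `A0` at `P0` -/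
abbrev R : Type := Localization.AtPrime P0

/-- `pi` in `R` -/
noncomputable def piR : R := algebraMap A0 R (MvPolynomial.C pB)

/-- the variables in `R` -/
noncomputable def varR (i : Fin 7) : R := algebraMap A0 R (MvPolynomial.X i)

/-- the `pi`-adic completion of `R` -/
abbrev O : Type := AdicCompletion (Ideal.span {piR} : Ideal R) R

/-- `pi` in `O` -/
noncomputable def piO : O := algebraMap R O piR

/-- the variables in `O` -/
noncomputable def varO (i : Fin 7) : O := algebraMap R O (varR i)

end Pool.Agent.H.MP_9e990c_al.Base
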