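import Pool.Agent.H.MP_9e990c_al.h30.Der

/-!
The endomorphism `t -> t, x_j -> -x_j, y_j -> 1/y_j` of the field of rational functions.
-/

namespace Pool.Agent.H.MP_9e990c_al.Base

open N9e MvPolynomial Cardinal

theorem algInd_xx : AlgebraicIndependent (ZMod 3) xx := by
  have h : (aeval xx : PA →ₐ[ZMod 3] MM) =
      (Algebra.ofId PA MM).restrictScalars (ZMod 3) := by
    refine MvPolynomial.algHom_ext fun i => ?_
    rw [aeval_X]
    rfl
  change Function.Injective (aeval xx : PA →ₐ[ZMod 3] MM)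
  rw [h]
  exact IsFractionRing.injective PA MM

/-- the values -/
noncomputable def vT : Fin 7 → MM := fun i =>
  if i = 0 then xx i else if i < 4 then - xx i else (xx i)⁻¹

theorem isAlg_xx (i : Fin 7) : IsAlgebraic (Algebra.adjoin (ZMod 3) (Set.range vT)) (xx i) := by
  have h : IsAlgebraic (Algebra.adjoin (ZMod 3) (Set.range vT)) (vT i) :=
    isAlgebraic_algebraMap
      (⟨vT i, Algebra.subset_adjoin ⟨i, rfl⟩⟩ : Algebra.adjoin (ZMod 3) (Set.range vT))
  by_cases h0 : i = 0
  · rwa [vT, if_pos h0] at h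
  · by_cases hi : i < 4
    · rw [vT, if_neg h0, if_pos hi] at h
      simpa using h.neg
    · rw [vT, if_neg h0, if_neg hi] at h
      simpa using h.inv

theorem isAlg_all : Algebra.IsAlgebraic (Algebra.adjoin (ZMod 3) (Set.range vT)) MM := by
  have hp : ∀ p : PA,
      IsAlgebraic (Algebra.adjoin (ZMod 3) (Set.range vT)) (algebraMap PA MM p) := by
    intro p
    induction p using MvPolynomial.induction_on with
    | C c =>
      have : algebraMap PA MM (C c) =
          algebraMap (Algebra.adjoin (ZMod 3) (Set.range vT)) MM (algebraMap (ZMod 3) _ c) := by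
        rw [← IsScalarTower.algebraMap_apply]
        rfl
      rw [this]
      exact isAlgebraic_algebraMap _
    | add p q h1 h2 => rw [map_add]; exact h1.add h2
    | mul_X p i h1 => rw [map_mul]; exact h1.mul (isAlg_xx i)
  refine ⟨fun z => ?_⟩
  obtain ⟨a, b, hb, rfl⟩ := IsFractionRing.div_surjective (A := PA) z
  rw [div_eq_mul_inv]
  exact (hp a).mul (hp b).inv

theorem algInd_vT : AlgebraicIndependent (ZMod 3) vT := by
  have := isAlg_all
  have h : #(Fin 7) ≤ Algebra.trdeg (ZMod 3) MM := algInd_xx.cardinalMk_le_trdeg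
  exact (Algebra.IsAlgebraic.isTranscendenceBasis_of_le_trdeg_of_finite (ZMod 3) vT h).1

theorem exists_tau : ∃ f : MM →+* MM, f (xx 0) = xx 0 ∧
    (∀ i : Fin 7, i ≠ 0 → i < 4 → f (xx i) = - xx i) ∧
    (∀ i : Fin 7, ¬ i < 4 → f (xx i) * xx i = 1) := by
  have hinj : Function.Injective (aeval vT : PA →ₐ[ZMod 3] MM) := algInd_vT
  have hu : ∀ y : nonZeroDivisors PA, IsUnit ((aeval vT : PA →ₐ[ZMod 3] MM) y) := by
    intro y
    refine isUnit_iff_ne_zero.mpr fun h => ?_
    have : (y : PA) = 0 := hinj (by rw [h, map_zero])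
    exact nonZeroDivisors.coe_ne_zero y this
  refine ⟨IsLocalization.lift (M := nonZeroDivisors PA)
    (g := ((aeval vT : PA →ₐ[ZMod 3] MM) : PA →+* MM)) hu, ?_, ?_, ?_⟩
  · rw [xx, IsLocalization.lift_eq]
    simp [vT, xx]
  · intro i h0 hi
    rw [xx, IsLocalization.lift_eq]
    simp [vT, xx, h0, hi]
  · intro i hi
    have h0 : i ≠ 0 := by
      rintro rfl
      exact hi (by decide)
    have e : IsLocalization.lift (M := nonZeroDivisors PA)
        (g := ((aeval vT : PA →ₐ[ZMod 3] MM) : PA →+* MM)) hu (xx i) = (xx i)⁻¹ := by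
      rw [xx, IsLocalization.lift_eq]
      simp [vT, xx, h0, hi]
    rw [e]
    exact inv_mul_cancel₀ (xx_ne_zero i)

end Pool.Agent.H.MP_9e990c_al.Base
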