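import Pool.Agent.H.MP_9e990c_al.h89.Congr
import Pool.Agent.H.MP_9e990c_al.h89.Tau

/-!
The involution `sigma : t -> t, x_j -> -x_j, b_j -> 1/b_j` of `R` and `O`.
-/

namespace Pool.Agent.H.MP_9e990c_al.Base

open N9e

/-- the induced endomorphism of the residue field -/
noncomputable def tau : MM →+* MM := exists_tau.choose

theorem tau_zero : tau (xx 0) = xx 0 := exists_tau.choose_spec.1

theorem tau_x {i : Fin 7} (h0 : i ≠ 0) (hi : i < 4) : tau (xx i) = - xx i :=
  exists_tau.choose_spec.2.1 i h0 hi

theorem tau_y {i : Fin 7} (hi : ¬ i < 4) : tau (xx i) * xx i = 1 :=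
  exists_tau.choose_spec.2.2 i hi

theorem isUnit_varR {i : Fin 7} (hi : ¬ i < 4) : IsUnit (varR i) := by
  refine unitR _ ?_
  rw [redR_var, if_neg hi]
  exact pow_ne_zero 3 (xx_ne_zero i)

/-- values of the variables under `sigma` -/
noncomputable def wG : Fin 7 → R := fun i =>
  if i = 0 then varR i else if i < 4 then - varR i else Ring.inverse (varR i)

theorem wG_zero : wG 0 = varR 0 := by simp [wG]

theorem wG_x {i : Fin 7} (h0 : i ≠ 0) (hi : i < 4) : wG i = - varR i := by
  simp [wG, h0, hi]

theorem wG_b {i : Fin 7} (hi : ¬ i < 4) : wG i * varR i = 1 := by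
  have h0 : i ≠ 0 := by
    rintro rfl
    exact hi (by decide)
  rw [wG, if_neg h0, if_neg hi]
  exact Ring.inverse_mul_cancel _ (isUnit_varR hi)

theorem redR_wG (i : Fin 7) : redR (wG i) = tau (redR (varR i)) := by
  by_cases h0 : i = 0
  · subst h0
    rw [wG_zero, redR_var, if_pos (by decide), tau_zero]
  · by_cases hi : i < 4
    · rw [wG_x h0 hi, map_neg, redR_var, if_pos hi, tau_x h0 hi]
    · have h1 := congrArg redR (wG_b hi)
      rw [map_mul, map_one, redR_var, if_neg hi] at h1
      rw [redR_var, if_neg hi, map_pow]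
      have h2 : tau (xx i) ^ 3 * xx i ^ 3 = 1 := by
        rw [← mul_pow, tau_y hi, one_pow]
      have h3 : (xx i ^ 3) ≠ 0 := pow_ne_zero 3 (xx_ne_zero i)
      exact mul_right_cancel₀ h3 (h1.trans h2.symm)

theorem redR_evA_wG (a : A0) : redR (evA wG a) = tau (redA' a) := by
  have h : redR.comp (evA wG) = tau.comp redA' := by
    refine homA0_ext (S := MM) ?_ ?_
    · rw [RingHom.comp_apply, RingHom.comp_apply, evA_C]
      have e1 : redR (algebraMap B R pB) = 0 := redR_pi
      have e2 : redA' (MvPolynomial.C pB) = 0 := by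
        rw [← redR_algebraMap]; exact redR_pi
      rw [e1, e2, map_zero]
    · intro i
      rw [RingHom.comp_apply, RingHom.comp_apply, evA_X, redR_wG, ← redR_algebraMap]
      rfl
  exact congrArg (fun f : A0 →+* MM => f a) h

theorem isUnit_evA_wG (a : A0) (ha : a ∉ P0) : IsUnit (evA wG a) := by
  refine unitR _ ?_
  rw [redR_evA_wG]
  intro h
  rw [map_eq_zero] at h
  exact ha ((redA'_eq_zero a).mp h)

/-- `sigma` on `R` -/
noncomputable def gR : R →+* R := (exists_liftR (evA wG) isUnit_evA_wG).choose

theorem gR_algebraMap (a : A0) : gR (algebraMap A0 R a) = evA wG a :=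
  (exists_liftR (evA wG) isUnit_evA_wG).choose_spec a

theorem gR_pi : gR piR = piR := by
  rw [piR, gR_algebraMap, evA_C]
  rfl

theorem gR_var (i : Fin 7) : gR (varR i) = wG i := by
  rw [varR, gR_algebraMap, evA_X]

theorem gR_b {i : Fin 7} (hi : ¬ i < 4) : gR (varR i) * varR i = 1 := by
  rw [gR_var, wG_b hi]

theorem gR_gR (r : R) : gR (gR r) = r := by
  have h : gR.comp gR = RingHom.id R := by
    refine homR_ext ?_ ?_
    · simp only [RingHom.comp_apply, RingHom.id_apply, gR_pi]
    · intro i
      simp only [RingHom.comp_apply, RingHom.id_apply]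
      by_cases h0 : i = 0
      · subst h0
        rw [gR_var, wG_zero, gR_var, wG_zero]
      · by_cases hi : i < 4
        · rw [gR_var, wG_x h0 hi, map_neg, gR_var, wG_x h0 hi, neg_neg]
        · have h1 := gR_b hi
          have h2 := congrArg gR h1
          rw [map_mul, map_one] at h2
          calc gR (gR (varR i)) = gR (gR (varR i)) * (gR (varR i) * varR i) := by
                rw [h1, mul_one]
            _ = (gR (gR (varR i)) * gR (varR i)) * varR i := by ring
            _ = varR i := by rw [h2, one_mul]
  exact congrArg (fun f : R →+* R => f r) h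

theorem gR_sR {i : Fin 7} (h0 : i ≠ 0) (hi : i < 4) (r : R) : gR (sR i (gR (sR i r))) = r := by
  have h : gR.comp ((sR i).comp (gR.comp (sR i))) = RingHom.id R := by
    refine homR_ext ?_ ?_
    · simp only [RingHom.comp_apply, RingHom.id_apply, gR_pi, sR_pi]
    · intro k
      simp only [RingHom.comp_apply, RingHom.id_apply]
      by_cases hk : k = i
      · subst hk
        -- u = s x, r = g u
        have h1 : sR k (varR k) * (1 + piR ^ 8 * varR k) = varR k + piR ^ 4 := by
          rw [sR_self, mob_mul]
        have h2 : gR (sR k (varR k)) * (1 - piR ^ 8 * varR k) = - varR k + piR ^ 4 := by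
          have := congrArg gR h1
          simp only [map_mul, map_add, map_pow, map_one, gR_pi] at this
          rw [gR_var k, wG_x h0 hi] at this
          rw [← this]; ring
        have h3 : sR k (gR (sR k (varR k))) * (1 - piR ^ 8 * sR k (varR k)) =
            - sR k (varR k) + piR ^ 4 := by
          have := congrArg (sR k) h2
          simp only [map_mul, map_add, map_sub, map_neg, map_pow, map_one, sR_pi] at this
          exact this
        have h4 : gR (sR k (gR (sR k (varR k)))) * (1 - piR ^ 8 * gR (sR k (varR k))) =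
            - gR (sR k (varR k)) + piR ^ 4 := by
          have := congrArg gR h3
          simp only [map_mul, map_add, map_sub, map_neg, map_pow, map_one, gR_pi] at this
          exact this
        have hu : IsUnit (1 - piR ^ 8 * gR (sR k (varR k))) := by
          have e : (1 - piR ^ 8 * gR (sR k (varR k))) =
              1 + piR ^ 8 * (- gR (sR k (varR k))) := by ring
          rw [e]
          exact isUnit_one_add_pow 8 (by norm_num) (- gR (sR k (varR k)))
        have key : (gR (sR k (gR (sR k (varR k)))) - varR k) *
            (1 - piR ^ 8 * gR (sR k (varR k))) = 0 := by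
          linear_combination h4 - h2
        exact sub_eq_zero.mp ((hu.mul_left_eq_zero).mp key)
      · rw [sR_ne hk]
        by_cases hk0 : k = 0
        · subst hk0
          rw [gR_var, wG_zero, sR_ne hk, gR_var, wG_zero]
        · by_cases hk4 : k < 4
          · rw [gR_var, wG_x hk0 hk4, map_neg, map_neg, sR_ne hk, gR_var, wG_x hk0 hk4, neg_neg]
          · have h1 := gR_b hk4
            have h2 := congrArg (sR i) h1
            rw [map_mul, map_one, sR_ne hk] at h2
            have h3 : sR i (gR (varR k)) = gR (varR k) :=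
              (isUnit_varR hk4).mul_left_injective (by simp only; rw [h1, h2])
            rw [h3, gR_gR]
  exact congrArg (fun f : R →+* R => f r) h

theorem redR_gR (r : R) : redR (gR r) = tau (redR r) := by
  have h : redR.comp gR = tau.comp redR := by
    refine homR_ext (S := MM) ?_ ?_
    · rw [RingHom.comp_apply, RingHom.comp_apply, gR_pi, redR_pi, map_zero]
    · intro i
      rw [RingHom.comp_apply, RingHom.comp_apply, gR_var, redR_wG]
  exact congrArg (fun f : R →+* MM => f r) h

/-- `sigma` on `O` -/
noncomputable def gO : O →+* O := (exists_extO gR gR_pi).choose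

theorem gO_algebraMap (r : R) : gO (algebraMap R O r) = algebraMap R O (gR r) :=
  (exists_extO gR gR_pi).choose_spec r

theorem gO_pi : gO piO = piO := by rw [piO, gO_algebraMap, gR_pi]

theorem gO_t : gO (varO 0) = varO 0 := by rw [varO, gO_algebraMap, gR_var, wG_zero]

theorem gO_x {i : Fin 7} (h0 : i ≠ 0) (hi : i < 4) : gO (varO i) = - varO i := by
  rw [varO, gO_algebraMap, gR_var, wG_x h0 hi, map_neg]

theorem gO_b {i : Fin 7} (hi : ¬ i < 4) : gO (varO i) * varO i = 1 := by
  rw [varO, gO_algebraMap, ← map_mul, gR_b hi, map_one]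

theorem gO_gO (x : O) : gO (gO x) = x := by
  have h : gO.comp gO = RingHom.id O := by
    refine homO_ext' ?_ rfl ?_
    · simp only [RingHom.comp_apply, gO_pi]
    · intro r
      simp only [RingHom.comp_apply, RingHom.id_apply, gO_algebraMap, gR_gR]
  exact congrArg (fun f : O →+* O => f x) h

theorem gO_sO {i : Fin 7} (h0 : i ≠ 0) (hi : i < 4) (x : O) : gO (sO i (gO (sO i x))) = x := by
  have h : gO.comp ((sO i).comp (gO.comp (sO i))) = RingHom.id O := by
    refine homO_ext' ?_ rfl ?_
    · simp only [RingHom.comp_apply, gO_pi, sO_pi]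
    · intro r
      simp only [RingHom.comp_apply, RingHom.id_apply, gO_algebraMap, sO_algebraMap,
        gR_sR h0 hi]
  exact congrArg (fun f : O →+* O => f x) h

/-- `sigma` as an automorphism of `O` -/
noncomputable def gOe : O ≃+* O :=
  RingEquiv.ofRingHom gO gO (RingHom.ext gO_gO) (RingHom.ext gO_gO)

theorem gOe_apply (x : O) : gOe x = gO x := rfl

theorem redO_gO (x : O) : redO (gO x) = tau (redO x) := by
  obtain ⟨r, y, hx⟩ := exists_approx 1 x
  rw [hx, map_add, map_mul, map_pow, gO_pi, gO_algebraMap, map_add, map_mul, map_pow, redO_pi,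
    map_add, map_mul, map_pow, redO_pi, redO_algebraMap, redO_algebraMap, redR_gR]
  simp

end Pool.Agent.H.MP_9e990c_al.Base
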