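import Pool.Agent.H.MP_9e990c_al.h89.Sg
import Pool.Agent.H.MP_9e990c_al.h30.Sb
import Pool.Agent.H.MP_9e990c_al.h4.Inst

/-!
`sigma` on `O` induces `sb` on the residue field and satisfies `IsSig`.
-/

namespace Pool.Agent.H.MP_9e990c_al.Base

open N9e

theorem sbv_y {i : Fin 7} (hi : ¬ i < 4) : sb (xx i) = (xx i)⁻¹ := by
  have h : i = 4 ∨ i = 5 ∨ i = 6 := by revert hi; revert i; decide
  rcases h with rfl | rfl | rfl
  · exact sb_y1
  · exact sb_y2
  · exact sb_y3

theorem sbv_x {i : Fin 7} (h0 : i ≠ 0) (hi : i < 4) : sb (xx i) = - xx i := by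
  have h : i = 1 ∨ i = 2 ∨ i = 3 := by revert h0 hi; revert i; decide
  rcases h with rfl | rfl | rfl
  · exact sb_x1
  · exact sb_x2
  · exact sb_x3

theorem tau_eq_sb : tau = sb := by
  refine N9e.hom_ext tau sb fun i => ?_
  by_cases h0 : i = 0
  · subst h0
    rw [tau_zero, sb_t]
  · by_cases hi : i < 4
    · rw [tau_x h0 hi, sbv_x h0 hi]
    · rw [sbv_y hi]
      exact eq_inv_of_mul_eq_one_left (tau_y hi)

theorem redO_gO_sb (x : O) : redO (gO x) = sb (redO x) := by
  rw [redO_gO, tau_eq_sb]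

theorem isSig_gOe : IsSig gOe where
  pi := gO_pi
  t := gO_t
  x := by
    intro i hi
    rcases hi with rfl | rfl | rfl
    · exact gO_x (by decide) (by decide)
    · exact gO_x (by decide) (by decide)
    · exact gO_x (by decide) (by decide)
  b := by
    intro i hi
    rcases hi with rfl | rfl | rfl
    · exact gO_b (by decide)
    · exact gO_b (by decide)
    · exact gO_b (by decide)
  inv := gO_gO

end Pool.Agent.H.MP_9e990c_al.Base
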