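import Pool.Agent.H.MP_9e990c_al.h89.Defs

/-!
The automorphisms `sigma_j` of the base ring `R` (before completion).
-/

namespace Pool.Agent.H.MP_9e990c_al.Base

open IsLocalRing

/-! ### ring homomorphisms out of `B`, `A0`, `R` are determined by the generators -/

theorem homB_ext {S : Type*} [CommRing S] {f g : B →+* S} (h : f pB = g pB) : f = g := by
  refine AdjoinRoot.ringHom_ext ?_ h
  exact Subsingleton.elim _ _

theorem homA0_ext {S : Type*} [CommRing S] {f g : A0 →+* S}
    (h : f (MvPolynomial.C pB) = g (MvPolynomial.C pB))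
    (hv : ∀ i, f (MvPolynomial.X i) = g (MvPolynomial.X i)) : f = g := by
  refine MvPolynomial.ringHom_ext' ?_ hv
  exact homB_ext h

theorem homR_ext {S : Type*} [CommRing S] {f g : R →+* S}
    (h : f piR = g piR) (hv : ∀ i, f (varR i) = g (varR i)) : f = g := by
  refine IsLocalization.ringHom_ext P0.primeCompl ?_
  exact homA0_ext h hv

theorem algebraMap_B (b : B) : (algebraMap B R b) = algebraMap A0 R (MvPolynomial.C b) := rfl

/-! ### units -/

theorem piR_mem : piR ∈ maximalIdeal R := by
  have h : MvPolynomial.C pB ∈ P0 := by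
    rw [P0, RingHom.mem_ker, redA, MvPolynomial.map_C, toF3_pB, map_zero]
  exact (IsLocalization.AtPrime.to_map_mem_maximal_iff R P0 _).mpr h

theorem isUnit_of_notMem {a : A0} (h : a ∉ P0) : IsUnit (algebraMap A0 R a) :=
  IsLocalization.map_units R (⟨a, h⟩ : P0.primeCompl)

theorem isUnit_one_add {a : R} (ha : a ∈ maximalIdeal R) : IsUnit (1 + a) := by
  by_contra h
  have h1 : (1 + a) ∈ maximalIdeal R := h
  have h2 : (1 : R) ∈ maximalIdeal R := by
    have := sub_mem h1 ha
    rwa [add_sub_cancel_right] at this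
  exact (Ideal.ne_top_iff_one _).mp (maximalIdeal.isMaximal R).ne_top h2

theorem isUnit_of_sub {a b : R} (ha : IsUnit a) (h : b - a ∈ maximalIdeal R) : IsUnit b := by
  by_contra hb
  have h1 : b ∈ maximalIdeal R := hb
  have h2 : a ∈ maximalIdeal R := by
    have := sub_mem h1 h
    simpa using this
  exact h2 ha

theorem pi_mul_mem (n : ℕ) (hn : n ≠ 0) (a : R) : piR ^ n * a ∈ maximalIdeal R :=
  Ideal.mul_mem_right _ _ (Ideal.pow_mem_of_mem _ piR_mem n (Nat.pos_of_ne_zero hn))

theorem isUnit_one_add_pow (n : ℕ) (hn : n ≠ 0) (a : R) : IsUnit (1 + piR ^ n * a) :=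
  isUnit_one_add (pi_mul_mem n hn a)

theorem piR_pow12 : piR ^ 12 = -3 := by
  rw [piR, ← map_pow, ← map_pow, pB_pow, map_neg, map_neg, map_ofNat, map_ofNat]

/-! ### lifting to the localisation -/

theorem exists_liftR {S : Type*} [CommRing S] (f : A0 →+* S)
    (h : ∀ a, a ∉ P0 → IsUnit (f a)) :
    ∃ g : R →+* S, ∀ a, g (algebraMap A0 R a) = f a := by
  refine ⟨IsLocalization.lift (M := P0.primeCompl) (g := f) (fun y => h y.1 y.2), fun a => ?_⟩
  exact IsLocalization.lift_eq _ a

/-- the homomorphism `A0 → R` with prescribed values of the variables -/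
noncomputable def evA (w : Fin 7 → R) : A0 →+* R := MvPolynomial.eval₂Hom (algebraMap B R) w

theorem evA_C (w : Fin 7 → R) (b : B) : evA w (MvPolynomial.C b) = algebraMap B R b := by
  simp [evA]

theorem evA_X (w : Fin 7 → R) (i : Fin 7) : evA w (MvPolynomial.X i) = w i := by
  simp [evA]

/-- values congruent to the variables give the same residue -/
theorem evA_sub_mem {w : Fin 7 → R} (hw : ∀ i, w i - varR i ∈ maximalIdeal R) (a : A0) :
    evA w a - algebraMap A0 R a ∈ maximalIdeal R := by
  have key : (Ideal.Quotient.mk (maximalIdeal R)).comp (evA w) =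
      (Ideal.Quotient.mk (maximalIdeal R)).comp (algebraMap A0 R) := by
    refine homA0_ext (S := R ⧸ maximalIdeal R) ?_ ?_
    · rw [RingHom.comp_apply, RingHom.comp_apply, evA_C]
      rfl
    · intro i
      rw [RingHom.comp_apply, RingHom.comp_apply, evA_X]
      exact (Ideal.Quotient.eq).mpr (hw i)
  rw [← Ideal.Quotient.eq]
  exact congrArg (fun f : A0 →+* R ⧸ maximalIdeal R => f a) key

theorem exists_endR {w : Fin 7 → R} (hw : ∀ i, w i - varR i ∈ maximalIdeal R) :
    ∃ g : R →+* R, g piR = piR ∧ ∀ i, g (varR i) = w i := by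
  obtain ⟨g, hg⟩ := exists_liftR (evA w) (fun a ha =>
    isUnit_of_sub (isUnit_of_notMem ha) (evA_sub_mem hw a))
  refine ⟨g, ?_, fun i => ?_⟩
  · rw [piR, hg, evA_C]
    rfl
  · rw [varR, hg, evA_X]

/-! ### the Moebius automorphisms -/

/-- `h = pi ^ 4` and `theta = pi ^ 8` : the value of `sigma_j` on `x_j` -/
noncomputable def mob (x : R) : R := (x + piR ^ 4) * Ring.inverse (1 + piR ^ 8 * x)

theorem mob_mul (x : R) : mob x * (1 + piR ^ 8 * x) = x + piR ^ 4 := by
  rw [mob, mul_assoc, Ring.inverse_mul_cancel _ (isUnit_one_add_pow 8 (by norm_num) x), mul_one]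

theorem mob_sub (x : R) : mob x - x ∈ maximalIdeal R := by
  have hu := isUnit_one_add_pow 8 (by norm_num) x
  have h : (mob x - x) * (1 + piR ^ 8 * x) = piR ^ 4 * (1 - piR ^ 4 * x ^ 2) := by
    rw [sub_mul, mob_mul]; ring
  have h2 : (mob x - x) * (1 + piR ^ 8 * x) ∈ maximalIdeal R := by
    rw [h]; exact pi_mul_mem 4 (by norm_num) _
  rcases (Ideal.IsPrime.mem_or_mem (maximalIdeal.isMaximal R).isPrime h2) with h3 | h3
  · exact h3
  · exact absurd hu h3

/-- a homomorphism `g` fixing `pi` with `g x = mob x` satisfies `g (g (g x)) = x` -/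
theorem mob_three (g : R →+* R) (hpi : g piR = piR) (x : R) (hx : g x = mob x) :
    g (g (g x)) = x := by
  have h1 : g x * (1 + piR ^ 8 * x) = x + piR ^ 4 := by rw [hx, mob_mul]
  have h2 : g (g x) * (1 + piR ^ 8 * g x) = g x + piR ^ 4 := by
    have := congrArg g h1
    simpa [map_mul, map_add, map_pow, hpi] using this
  have h3 : g (g (g x)) * (1 + piR ^ 8 * g (g x)) = g (g x) + piR ^ 4 := by
    have := congrArg g h2
    simpa [map_mul, map_add, map_pow, hpi] using this
  have hu2 : IsUnit (1 + piR ^ 8 * g x) := isUnit_one_add_pow 8 (by norm_num) _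
  have hu3 : IsUnit (1 + piR ^ 8 * g (g x)) := isUnit_one_add_pow 8 (by norm_num) _
  have key : (g (g (g x)) - x) * (1 + piR ^ 8 * g (g x)) * (1 + piR ^ 8 * g x) = 0 := by
    have hp := piR_pow12
    generalize g (g (g x)) = w at *
    generalize g (g x) = v at *
    generalize g x = u at *
    linear_combination (1 + piR ^ 8 * u) * h3 + (1 - piR ^ 8 * x) * h2 - 2 * h1 +
      (u - x) * hp
  have k2 := (hu2.mul_left_eq_zero).mp key
  have k3 := (hu3.mul_left_eq_zero).mp k2
  exact sub_eq_zero.mp k3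

end Pool.Agent.H.MP_9e990c_al.Base
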