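import Pool.Agent.H.MP_9e990c_al.h89.SigR

/-!
The automorphisms `sigma_i : x_i -> (x_i + pi^4) / (1 + pi^8 x_i)` of `R`: definition, order three,
commutation.
-/

namespace Pool.Agent.H.MP_9e990c_al.Base

open IsLocalRing

/-- prescribed values of the variables for `sigma_i` -/
noncomputable def wS (i : Fin 7) : Fin 7 → R := fun k => if k = i then mob (varR i) else varR k

theorem wS_sub (i k : Fin 7) : wS i k - varR k ∈ maximalIdeal R := by
  by_cases h : k = i
  · subst h
    simp only [wS, if_true]
    exact mob_sub _
  · simp only [wS, if_neg h, sub_self]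
    exact zero_mem _

/-- the endomorphism `sigma_i` of `R` -/
noncomputable def sR (i : Fin 7) : R →+* R := (exists_endR (wS_sub i)).choose

theorem sR_pi (i : Fin 7) : sR i piR = piR := (exists_endR (wS_sub i)).choose_spec.1

theorem sR_self (i : Fin 7) : sR i (varR i) = mob (varR i) := by
  have := (exists_endR (wS_sub i)).choose_spec.2 i
  rwa [wS, if_pos rfl] at this

theorem sR_ne {i k : Fin 7} (h : k ≠ i) : sR i (varR k) = varR k := by
  have := (exists_endR (wS_sub i)).choose_spec.2 k
  rwa [wS, if_neg h] at this

theorem map_mob (g : R →+* R) (hpi : g piR = piR) (x : R) : g (mob x) = mob (g x) := by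
  have h1 : g (mob x) * (1 + piR ^ 8 * g x) = g x + piR ^ 4 := by
    have := congrArg g (mob_mul x)
    simpa [map_mul, map_add, map_pow, hpi] using this
  have h2 := mob_mul (g x)
  have hu : IsUnit (1 + piR ^ 8 * g x) := isUnit_one_add_pow 8 (by norm_num) _
  exact hu.mul_left_injective (by simp only; rw [h1, h2])

theorem sR_three (i : Fin 7) (r : R) : sR i (sR i (sR i r)) = r := by
  have h : ((sR i).comp ((sR i).comp (sR i))) = RingHom.id R := by
    refine homR_ext ?_ ?_
    · simp only [RingHom.comp_apply, RingHom.id_apply, sR_pi]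
    · intro k
      simp only [RingHom.comp_apply, RingHom.id_apply]
      by_cases hk : k = i
      · subst hk
        exact mob_three (sR k) (sR_pi k) _ (sR_self k)
      · rw [sR_ne hk, sR_ne hk, sR_ne hk]
  exact congrArg (fun f : R →+* R => f r) h

theorem sR_comm (i j : Fin 7) (r : R) : sR i (sR j r) = sR j (sR i r) := by
  by_cases hij : i = j
  · rw [hij]
  have h : (sR i).comp (sR j) = (sR j).comp (sR i) := by
    refine homR_ext ?_ ?_
    · simp only [RingHom.comp_apply, sR_pi]
    · intro k
      simp only [RingHom.comp_apply]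
      by_cases hk : k = i
      · subst hk
        rw [sR_ne hij, sR_self, map_mob _ (sR_pi j), sR_ne hij]
      · by_cases hkj : k = j
        · subst hkj
          rw [sR_self, map_mob _ (sR_pi i), sR_ne hk, sR_self]
        · rw [sR_ne hk, sR_ne hkj, sR_ne hk]
  exact congrArg (fun f : R →+* R => f r) h

/-- `sigma_i` as an automorphism of `R` -/
noncomputable def sRe (i : Fin 7) : R ≃+* R :=
  RingEquiv.ofRingHom (sR i) ((sR i).comp (sR i))
    (by ext r; exact sR_three i r) (by ext r; exact sR_three i r)

theorem sRe_apply (i : Fin 7) (r : R) : sRe i r = sR i r := rfl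

theorem sRe_symm_apply (i : Fin 7) (r : R) : (sRe i).symm r = sR i (sR i r) := rfl

end Pool.Agent.H.MP_9e990c_al.Base
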